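import Pool.Agent.TH198.AT.Conv

/-!
# The Cole–Hopf function solves its equation (piece `St_CH`)
-/

set_option autoImplicit false

open MeasureTheory ProbabilityTheory Set Filter Topology
open Pool.TH198.AT

namespace Pool.TH114.AT

/-- the function `cosh^m` -/
noncomputable def gf (m x : ℝ) : ℝ := Real.cosh x ^ m
noncomputable def gf1 (m x : ℝ) : ℝ := m * Real.tanh x * gf m x
noncomputable def gf2 (m x : ℝ) : ℝ := (m ^ 2 * Real.tanh x ^ 2 + m * sech x ^ 2) * gf m x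

lemma sech_sq (x : ℝ) : sech x ^ 2 = 1 - Real.tanh x ^ 2 := by
  have hc := Real.cosh_pos x
  have h := Real.cosh_sq x
  rw [sech, Real.tanh_eq_sinh_div_cosh]
  field_simp
  linarith

lemma hasDerivAt_tanh' (x : ℝ) : HasDerivAt Real.tanh (sech x ^ 2) x := by
  have hc := Real.cosh_pos x
  have h : HasDerivAt (fun x => Real.sinh x / Real.cosh x)
      ((Real.cosh x * Real.cosh x - Real.sinh x * Real.sinh x) / Real.cosh x ^ 2) x :=
    (Real.hasDerivAt_sinh x).div (Real.hasDerivAt_cosh x) hc.ne'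
  have e : (fun x => Real.sinh x / Real.cosh x) = Real.tanh := by
    funext y; rw [Real.tanh_eq_sinh_div_cosh]
  rw [e] at h
  convert h using 1
  rw [sech]
  have h2 := Real.cosh_sq x
  field_simp
  linarith

lemma gf_pos (m x : ℝ) : 0 < gf m x := Real.rpow_pos_of_pos (Real.cosh_pos x) m

lemma one_le_gf {m : ℝ} (hm : 0 < m) (x : ℝ) : 1 ≤ gf m x :=
  Real.one_le_rpow (Real.one_le_cosh x) hm.le

lemma hd_gf (m x : ℝ) : HasDerivAt (gf m) (gf1 m x) x := by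
  have hc := Real.cosh_pos x
  have h := (Real.hasDerivAt_cosh x).rpow_const (p := m) (Or.inl hc.ne')
  refine h.congr_deriv ?_
  rw [gf1, gf, Real.tanh_eq_sinh_div_cosh, Real.rpow_sub_one hc.ne']
  field_simp

lemma hd_gf1 (m x : ℝ) : HasDerivAt (gf1 m) (gf2 m x) x := by
  have h := ((hasDerivAt_tanh' x).const_mul m).mul (hd_gf m x)
  refine h.congr_deriv ?_
  rw [gf1, gf2]
  ring

lemma cont_tanh : Continuous Real.tanh :=
  continuous_iff_continuousAt.2 fun x => (hasDerivAt_tanh' x).continuousAt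

lemma cont_gf (m : ℝ) : Continuous (gf m) :=
  continuous_iff_continuousAt.2 fun x => (hd_gf m x).continuousAt

lemma cont_gf1 (m : ℝ) : Continuous (gf1 m) :=
  continuous_iff_continuousAt.2 fun x => (hd_gf1 m x).continuousAt

lemma cont_gf2 (m : ℝ) : Continuous (gf2 m) := by
  have e : gf2 m = fun x => (m ^ 2 * Real.tanh x ^ 2 + m * (1 - Real.tanh x ^ 2)) * gf m x := by
    funext x; rw [gf2, sech_sq]
  rw [e]
  exact ((continuous_const.mul (cont_tanh.pow 2)).add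
    (continuous_const.mul (continuous_const.sub (cont_tanh.pow 2)))).mul (cont_gf m)

lemma tanh_sq_le (x : ℝ) : Real.tanh x ^ 2 ≤ 1 := by
  have := sech_sq x
  nlinarith [sq_nonneg (sech x)]

lemma abs_gf1_le {m : ℝ} (hm : 0 < m) (x : ℝ) : |gf1 m x| ≤ m * gf m x := by
  have h1 : |Real.tanh x| ≤ 1 := by
    rw [← sq_le_one_iff_abs_le_one]; exact tanh_sq_le x
  rw [gf1, abs_mul, abs_mul, abs_of_pos hm, abs_of_pos (gf_pos m x)]
  have := gf_pos m x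
  nlinarith [mul_pos hm this]

lemma gf2_nonneg {m : ℝ} (hm : 0 < m) (x : ℝ) : 0 ≤ gf2 m x := by
  rw [gf2]
  have := gf_pos m x
  positivity

lemma gf2_le {m : ℝ} (hm : 0 < m) (hm1 : m ≤ 1) (x : ℝ) : gf2 m x ≤ m * gf m x := by
  rw [gf2]
  refine mul_le_mul_of_nonneg_right ?_ (gf_pos m x).le
  rw [sech_sq]
  nlinarith [mul_nonneg (mul_nonneg hm.le (sub_nonneg.2 hm1)) (sq_nonneg (Real.tanh x))]

lemma cosh_le_exp (x : ℝ) : Real.cosh x ≤ Real.exp |x| := by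
  rw [← Real.cosh_abs, Real.cosh_eq]
  have : Real.exp (-|x|) ≤ Real.exp |x| := Real.exp_le_exp.2 (by linarith [abs_nonneg x])
  linarith

lemma gf_le_exp {m : ℝ} (hm1 : m ≤ 1) (x : ℝ) : gf m x ≤ Real.exp |x| :=
  (Real.rpow_le_rpow_of_exponent_le (Real.one_le_cosh x) hm1).trans
    (by rw [Real.rpow_one]; exact cosh_le_exp x)

lemma expC2 {m : ℝ} (hm : 0 < m) (hm1 : m ≤ 1) : ExpC2 (gf m) (gf1 m) (gf2 m) := by
  refine ⟨hd_gf m, hd_gf1 m, cont_gf2 m, 1, 1, fun x => ?_⟩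
  have h0 := gf_le_exp hm1 x
  have hp := gf_pos m x
  rw [one_mul, one_mul]
  have h3 : m * gf m x ≤ Real.exp |x| := by nlinarith
  refine ⟨by rw [abs_of_pos hp]; exact h0, (abs_gf1_le hm x).trans h3, ?_⟩
  rw [abs_of_nonneg (gf2_nonneg hm x)]
  exact (gf2_le hm hm1 x).trans h3

lemma integrable_gf {m : ℝ} (hm1 : m ≤ 1) (x σ : ℝ) :
    Integrable (fun y => gf m (x + σ * y)) (gaussianReal 0 1) := by
  have h1 : Integrable (fun y => Real.exp |x| * (Real.exp (σ * y) + Real.exp ((-σ) * y)))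
      (gaussianReal 0 1) :=
    ((integrable_exp_mul_gaussianReal σ).add (integrable_exp_mul_gaussianReal (-σ))).const_mul _
  refine h1.mono' ((cont_gf m).comp (by fun_prop)).aestronglyMeasurable
    (Eventually.of_forall fun y => ?_)
  rw [Real.norm_eq_abs, abs_of_pos (gf_pos m _)]
  refine (gf_le_exp hm1 _).trans ?_
  have h2 : |x + σ * y| ≤ |x| + |σ * y| := abs_add_le _ _
  refine (Real.exp_le_exp.2 h2).trans ?_
  rw [Real.exp_add]
  refine mul_le_mul_of_nonneg_left ?_ (Real.exp_pos _).le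
  rcases abs_cases (σ * y) with ⟨h, -⟩ | ⟨h, -⟩
  · rw [h]; linarith [Real.exp_pos (-σ * y)]
  · rw [h]
    have : -(σ * y) = -σ * y := by ring
    rw [this]; linarith [Real.exp_pos (σ * y)]

/-- `E cosh^m` and its two derivatives -/
noncomputable def A0 (m w x : ℝ) : ℝ := E1 (fun y => gf m (x + √w * y))
noncomputable def A1 (m w x : ℝ) : ℝ := E1 (fun y => gf1 m (x + √w * y))
noncomputable def A2 (m w x : ℝ) : ℝ := E1 (fun y => gf2 m (x + √w * y))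

lemma one_le_A0 {m : ℝ} (hm : 0 < m) (hm1 : m ≤ 1) (w x : ℝ) : 1 ≤ A0 m w x := by
  have h : E1 (fun _ => (1 : ℝ)) ≤ A0 m w x :=
    integral_mono (integrable_const _) (integrable_gf hm1 x _) fun _ => one_le_gf hm _
  simpa [E1] using h

lemma abs_A1_le {m : ℝ} (hm : 0 < m) (hm1 : m ≤ 1) (w x : ℝ) : |A1 m w x| ≤ m * A0 m w x := by
  have h1 : |A1 m w x| ≤ ∫ y, |gf1 m (x + √w * y)| ∂(gaussianReal 0 1) := by
    rw [A1, E1]
    exact abs_integral_le_integral_abs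
  refine h1.trans ?_
  rw [A0, E1, ← integral_const_mul]
  exact integral_mono_of_nonneg (Eventually.of_forall fun y => abs_nonneg _)
    ((integrable_gf hm1 x _).const_mul m) (Eventually.of_forall fun y => abs_gf1_le hm _)

lemma A2_nonneg {m : ℝ} (hm : 0 < m) (w x : ℝ) : 0 ≤ A2 m w x :=
  integral_nonneg fun y => gf2_nonneg hm _

lemma A2_le {m : ℝ} (hm : 0 < m) (hm1 : m ≤ 1) (w x : ℝ) : A2 m w x ≤ m * A0 m w x := by
  rw [A0, A2, E1, E1, ← integral_const_mul]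
  exact integral_mono_of_nonneg (Eventually.of_forall fun y => gf2_nonneg hm _)
    ((integrable_gf hm1 x _).const_mul m) (Eventually.of_forall fun y => gf2_le hm hm1 _)

noncomputable def U1 (m w x : ℝ) : ℝ := (1 / m) * (A1 m w x / A0 m w x)
noncomputable def U2 (m w x : ℝ) : ℝ :=
  (1 / m) * (A2 m w x / A0 m w x - (A1 m w x / A0 m w x) ^ 2)

lemma A0_pos {m : ℝ} (hm : 0 < m) (hm1 : m ≤ 1) (w x : ℝ) : 0 < A0 m w x :=
  zero_lt_one.trans_le (one_le_A0 hm hm1 w x)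

lemma UH_eq (m w x : ℝ) : UH m w x = (1 / m) * Real.log (A0 m w x) := rfl

lemma part1 {m : ℝ} (hm : 0 < m) (hm1 : m ≤ 1) (w x : ℝ)
    (h0 : HasDerivAt (A0 m w) (A1 m w x) x) (h1 : HasDerivAt (A1 m w) (A2 m w x) x) :
    HasDerivAt (UH m w) (U1 m w x) x ∧ HasDerivAt (U1 m w) (U2 m w x) x := by
  have hp := (A0_pos hm hm1 w x).ne'
  refine ⟨?_, ?_⟩
  · have e : UH m w = fun x => (1 / m) * Real.log (A0 m w x) := by funext x; rw [UH_eq]
    rw [e]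
    exact (h0.log hp).const_mul (1 / m)
  · have e : U1 m w = fun x => (1 / m) * (A1 m w x / A0 m w x) := by funext x; rw [U1]
    rw [e]
    have h2 := (h1.div h0 hp).const_mul (1 / m)
    refine h2.congr_deriv ?_
    rw [U2]
    field_simp

lemma part2 {m : ℝ} (hm : 0 < m) (hm1 : m ≤ 1) (w x : ℝ)
    (h0 : HasDerivAt (fun w => A0 m w x) (A2 m w x / 2) w) :
    HasDerivAt (fun w => UH m w x) ((U2 m w x + m * U1 m w x ^ 2) / 2) w := by
  have hp := (A0_pos hm hm1 w x).ne'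
  have e : (fun w => UH m w x) = fun w => (1 / m) * Real.log (A0 m w x) := by
    funext w; rw [UH_eq]
  rw [e]
  have h2 := (h0.log hp).const_mul (1 / m)
  refine h2.congr_deriv ?_
  rw [U1, U2]
  field_simp
  ring

lemma part3 {m : ℝ} (hm : 0 < m) (hm1 : m ≤ 1) (w x : ℝ) : |U1 m w x| ≤ 1 ∧ |U2 m w x| ≤ 3 := by
  have hp := A0_pos hm hm1 w x
  have h1 : |A1 m w x / A0 m w x| ≤ m := by
    rw [abs_div, abs_of_pos hp, div_le_iff₀ hp]
    exact abs_A1_le hm hm1 w x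
  have h2 : A2 m w x / A0 m w x ≤ m := by
    rw [div_le_iff₀ hp]
    exact A2_le hm hm1 w x
  have h3 : 0 ≤ A2 m w x / A0 m w x := div_nonneg (A2_nonneg hm w x) hp.le
  rw [U1, U2]
  generalize A1 m w x / A0 m w x = a at *
  generalize A2 m w x / A0 m w x = b at *
  have h4 : a ^ 2 ≤ m ^ 2 := by
    rw [← sq_abs a]
    exact pow_le_pow_left₀ (abs_nonneg _) h1 2
  have h4' : m ^ 2 ≤ m := by nlinarith
  have h5 := sq_nonneg a
  have hi : 0 < 1 / m := by positivity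
  refine ⟨?_, ?_⟩
  · rw [abs_mul, abs_of_pos hi, one_div, inv_mul_le_iff₀ hm, mul_one]
    exact h1
  · rw [abs_mul, abs_of_pos hi, one_div, inv_mul_le_iff₀ hm, abs_le]
    constructor <;> linarith

lemma part4 {m : ℝ} (hm : 0 < m) (x : ℝ) :
    UH m 0 x = Real.log (Real.cosh x) ∧ U1 m 0 x = Real.tanh x ∧ U2 m 0 x = sech x ^ 2 := by
  have e0 : A0 m 0 x = gf m x := by simp [A0, E1]
  have e1 : A1 m 0 x = gf1 m x := by simp [A1, E1]
  have e2 : A2 m 0 x = gf2 m x := by simp [A2, E1]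
  have hg := (gf_pos m x).ne'
  refine ⟨?_, ?_, ?_⟩
  · rw [UH_eq, e0, gf, Real.log_rpow (Real.cosh_pos x)]
    field_simp
  · rw [U1, e0, e1, gf1]
    field_simp
  · rw [U2, e0, e1, e2, gf1, gf2]
    field_simp
    ring


theorem b1 (m : ℝ) (hc0 : Continuous (fun p : ℝ × ℝ => E1 (fun y => gf m (p.1 + √p.2 * y)))) :
    Continuous (fun p : ℝ × ℝ => A0 m p.1 p.2) := by
  have hsw : Continuous (fun p : ℝ × ℝ => (p.2, p.1)) := continuous_snd.prodMk continuous_fst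
  have h := hc0.comp hsw
  exact h
theorem b2 (m : ℝ) (hx0 : ∀ x σ : ℝ, HasDerivAt (fun x => E1 (fun y => gf m (x + σ * y))) (E1 (fun y => gf1 m (x + σ * y))) x) (w x : ℝ) : HasDerivAt (A0 m w) (A1 m w x) x := hx0 x (√w)
theorem b3 (m : ℝ) (hv : ∀ x v : ℝ, 0 < v →
      HasDerivAt (fun v => E1 (fun y => gf m (x + √v * y))) (E1 (fun y => gf2 m (x + √v * y)) / 2) v) (w x : ℝ) (hw : 0 < w) : HasDerivAt (fun w => A0 m w x) (A2 m w x / 2) w := hv x w hw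
theorem b4 (m : ℝ) (hC0 : Continuous (fun p : ℝ × ℝ => A0 m p.1 p.2))  (hne : ∀ p : ℝ × ℝ, A0 m p.1 p.2 ≠ 0) : Continuous (fun p : ℝ × ℝ => UH m p.1 p.2) := by
    have e : (fun p : ℝ × ℝ => UH m p.1 p.2) = fun p => (1 / m) * Real.log (A0 m p.1 p.2) := by
      funext p; rw [UH_eq]
    rw [e]; exact continuous_const.mul (hC0.log hne)

theorem q1 (m : ℝ) (hC0 : Continuous (fun p : ℝ × ℝ => A0 m p.1 p.2)) (hC1 : Continuous (fun p : ℝ × ℝ => A1 m p.1 p.2)) (hne : ∀ p : ℝ × ℝ, A0 m p.1 p.2 ≠ 0) : Continuous (fun p : ℝ × ℝ => U1 m p.1 p.2) := by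
    have e : (fun p : ℝ × ℝ => U1 m p.1 p.2) =
        fun p => (1 / m) * (A1 m p.1 p.2 / A0 m p.1 p.2) := by
      funext p; rw [U1]
    rw [e]; exact continuous_const.mul (hC1.div hC0 hne)
theorem q2 (m : ℝ) (hC0 : Continuous (fun p : ℝ × ℝ => A0 m p.1 p.2)) (hC1 : Continuous (fun p : ℝ × ℝ => A1 m p.1 p.2)) (hC2 : Continuous (fun p : ℝ × ℝ => A2 m p.1 p.2)) (hne : ∀ p : ℝ × ℝ, A0 m p.1 p.2 ≠ 0) : Continuous (fun p : ℝ × ℝ => U2 m p.1 p.2) := by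
    have e : (fun p : ℝ × ℝ => U2 m p.1 p.2) = fun p =>
        (1 / m) * (A2 m p.1 p.2 / A0 m p.1 p.2 - (A1 m p.1 p.2 / A0 m p.1 p.2) ^ 2) := by
      funext p; rw [U2]
    rw [e]; exact continuous_const.mul ((hC2.div hC0 hne).sub ((hC1.div hC0 hne).pow 2))
theorem q3 (m : ℝ) (hm : 0 < m) (hm1 : m ≤ 1) : (∀ w x : ℝ, 0 ≤ w → |U1 m w x| ≤ 1 ∧ |U2 m w x| ≤ 3) := fun w x _ => part3 hm hm1 w x
theorem q4 (m : ℝ) (hm : 0 < m) : (∀ x : ℝ, UH m 0 x = Real.log (Real.cosh x) ∧ U1 m 0 x = Real.tanh x ∧ U2 m 0 x = sech x ^ 2) := fun x => part4 hm x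
theorem q5 (m : ℝ) (hm : 0 < m) (hm1 : m ≤ 1) (h1 : ∀ w x : ℝ, 0 ≤ w → HasDerivAt (UH m w) (U1 m w x) x ∧ HasDerivAt (U1 m w) (U2 m w x) x)
  (h2 : ∀ w x : ℝ, 0 < w →
      HasDerivAt (fun w => UH m w x) ((U2 m w x + m * U1 m w x ^ 2) / 2) w)
  (k0 : Continuous (fun p : ℝ × ℝ => UH m p.1 p.2)) (k1 : Continuous (fun p : ℝ × ℝ => U1 m p.1 p.2)) (k2 : Continuous (fun p : ℝ × ℝ => U2 m p.1 p.2)) : ∃ Ux Uxx : ℝ → ℝ → ℝ,
    (∀ w x : ℝ, 0 ≤ w → HasDerivAt (UH m w) (Ux w x) x ∧ HasDerivAt (Ux w) (Uxx w x) x) ∧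
    (∀ w x : ℝ, 0 < w →
      HasDerivAt (fun w => UH m w x) ((Uxx w x + m * Ux w x ^ 2) / 2) w) ∧
    ContinuousOn (fun p : ℝ × ℝ => UH m p.1 p.2) (Ici 0 ×ˢ univ) ∧
    ContinuousOn (fun p : ℝ × ℝ => Ux p.1 p.2) (Ici 0 ×ˢ univ) ∧
    ContinuousOn (fun p : ℝ × ℝ => Uxx p.1 p.2) (Ici 0 ×ˢ univ) ∧
    (∀ w x : ℝ, 0 ≤ w → |Ux w x| ≤ 1 ∧ |Uxx w x| ≤ 3) ∧
    (∀ x : ℝ, UH m 0 x = Real.log (Real.cosh x) ∧ Ux 0 x = Real.tanh x ∧ Uxx 0 x = sech x ^ 2) :=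
  ⟨U1 m, U2 m, h1, h2, k0.continuousOn, k1.continuousOn, k2.continuousOn, q3 m hm hm1, q4 m hm⟩

theorem step1 {m : ℝ} (hm : 0 < m) (hm1 : m ≤ 1)
    (hx0 : ∀ x σ : ℝ, HasDerivAt (fun x => E1 (fun y => gf m (x + σ * y)))
      (E1 (fun y => gf1 m (x + σ * y))) x)
    (hx1 : ∀ x σ : ℝ, HasDerivAt (fun x => E1 (fun y => gf1 m (x + σ * y)))
      (E1 (fun y => gf2 m (x + σ * y))) x) (w x : ℝ) (_ : 0 ≤ w) :
    HasDerivAt (UH m w) (U1 m w x) x ∧ HasDerivAt (U1 m w) (U2 m w x) x :=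
  part1 hm hm1 w x (hx0 x (√w)) (hx1 x (√w))

theorem step2 {m : ℝ} (hm : 0 < m) (hm1 : m ≤ 1)
    (hv : ∀ x v : ℝ, 0 < v → HasDerivAt (fun v => E1 (fun y => gf m (x + √v * y)))
      (E1 (fun y => gf2 m (x + √v * y)) / 2) v) (w x : ℝ) (hw : 0 < w) :
    HasDerivAt (fun w => UH m w x) ((U2 m w x + m * U1 m w x ^ 2) / 2) w :=
  part2 hm hm1 w x (hv x w hw)

theorem b5 (m : ℝ) (hc0 : Continuous (fun p : ℝ × ℝ => E1 (fun y => gf1 m (p.1 + √p.2 * y)))) :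
    Continuous (fun p : ℝ × ℝ => A1 m p.1 p.2) := by
  have hsw : Continuous (fun p : ℝ × ℝ => (p.2, p.1)) := continuous_snd.prodMk continuous_fst
  have h := hc0.comp hsw
  exact h

theorem b6 (m : ℝ) (hc0 : Continuous (fun p : ℝ × ℝ => E1 (fun y => gf2 m (p.1 + √p.2 * y)))) :
    Continuous (fun p : ℝ × ℝ => A2 m p.1 p.2) := by
  have hsw : Continuous (fun p : ℝ × ℝ => (p.2, p.1)) := continuous_snd.prodMk continuous_fst
  have h := hc0.comp hsw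
  exact h

theorem t_CH (hE : St_HEATE) : St_CH := by
  intro m hm hm1
  have H := hE (gf m) (gf1 m) (gf2 m) (expC2 hm hm1)
  have hne : ∀ p : ℝ × ℝ, A0 m p.1 p.2 ≠ 0 := fun p => (A0_pos hm hm1 _ _).ne'
  have hC0 := b1 m H.2.2.2.1
  have hC1 := b5 m H.2.2.2.2.1
  have hC2 := b6 m H.2.2.2.2.2
  exact q5 m hm hm1 (step1 hm hm1 H.1 H.2.1) (step2 hm hm1 H.2.2.1)
    (b4 m hC0 hne) (q1 m hC0 hC1 hne) (q2 m hC0 hC1 hC2 hne)

end Pool.TH114.AT
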